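import Pool.Agent.Helper9.TN.Basic
import Pool.Agent.Helper28.TN.RoughSum
import Pool.Agent.Helper51.TN.Mod
import Pool.Agent.Helper30.TN.Sieve

/-!
# TN-4: the good part
-/

set_option autoImplicit false

open Finset
open scoped Nat

namespace Pool.Agent.TN

/-- the sum over squarefree numbers is at most the Euler product -/
private theorem sum_squarefree_le (M : ℕ) (h : ℕ → ℝ) (hh : ∀ r, 0 ≤ h r) :
    ∑ a ∈ (Finset.Icc 1 M).filter Squarefree, (∏ r ∈ a.primeFactors, h r) / a ≤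
      Real.exp (∑ r ∈ (Finset.Icc 1 M).filter Nat.Prime, h r / r) := by
  classical
  set P := (Finset.Icc 1 M).filter Nat.Prime with hP
  set A := (Finset.Icc 1 M).filter Squarefree with hA
  let F : Finset ℕ → ℝ := fun S => ∏ r ∈ S, h r / r
  have hF : ∀ S, 0 ≤ F S := fun S => Finset.prod_nonneg fun r _ => div_nonneg (hh r) (Nat.cast_nonneg r)
  have h1 : ∀ a ∈ A, (∏ r ∈ a.primeFactors, h r) / a = F a.primeFactors := by
    intro a ha
    rw [hA, Finset.mem_filter] at ha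
    have h2 : ((∏ r ∈ a.primeFactors, r : ℕ) : ℝ) = a := by
      rw [Nat.prod_primeFactors_of_squarefree ha.2]
    change _ = ∏ r ∈ a.primeFactors, h r / (r : ℝ)
    rw [Finset.prod_div_distrib, ← Nat.cast_prod, h2]
  have h3 : Set.InjOn Nat.primeFactors (A : Set ℕ) := by
    intro a ha b hb hab
    rw [Finset.mem_coe, hA, Finset.mem_filter] at ha hb
    rw [← Nat.prod_primeFactors_of_squarefree ha.2, ← Nat.prod_primeFactors_of_squarefree hb.2, hab]
  rw [Finset.sum_congr rfl h1, ← Finset.sum_image (f := F) h3]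
  calc ∑ S ∈ A.image Nat.primeFactors, F S ≤ ∑ S ∈ P.powerset, F S := by
        refine Finset.sum_le_sum_of_subset_of_nonneg ?_ fun S _ _ => hF S
        intro S hS
        obtain ⟨a, ha, rfl⟩ := Finset.mem_image.1 hS
        rw [Finset.mem_powerset]
        intro r hr
        rw [hA, Finset.mem_filter, Finset.mem_Icc] at ha
        rw [hP, Finset.mem_filter, Finset.mem_Icc]
        have hrp := Nat.prime_of_mem_primeFactors hr
        exact ⟨⟨hrp.one_le, (Nat.le_of_mem_primeFactors hr).trans ha.1.2⟩, hrp⟩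
    _ = ∏ r ∈ P, (1 + h r / r) := (Finset.prod_one_add P).symm
    _ ≤ ∏ r ∈ P, Real.exp (h r / r) := by
        refine Finset.prod_le_prod (fun r _ => ?_) fun r _ => ?_
        · have := div_nonneg (hh r) (Nat.cast_nonneg (α := ℝ) r)
          linarith
        · rw [add_comm]
          exact Real.add_one_le_exp _
    _ = Real.exp (∑ r ∈ P, h r / r) := (Real.exp_sum _ _).symm

private theorem gcd_prod_le {v : ℕ} (hv : v ≠ 0) (s : Finset ℕ) (f : ℕ → ℕ) :
    Nat.gcd (∏ i ∈ s, f i) v ≤ ∏ i ∈ s, Nat.gcd (f i) v := by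
  classical
  induction s using Finset.induction_on with
  | empty => simp
  | insert i s hi ih =>
    rw [Finset.prod_insert hi, Finset.prod_insert hi]
    have h1 : Nat.gcd (f i * ∏ j ∈ s, f j) v ∣ Nat.gcd (f i) v * Nat.gcd (∏ j ∈ s, f j) v :=
      Nat.gcd_mul_left_dvd_mul_gcd _ _ _
    have h2 : 0 < Nat.gcd (f i) v * Nat.gcd (∏ j ∈ s, f j) v :=
      Nat.mul_pos (Nat.gcd_pos_of_pos_right _ (Nat.pos_of_ne_zero hv))
        (Nat.gcd_pos_of_pos_right _ (Nat.pos_of_ne_zero hv))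
    exact (Nat.le_of_dvd h2 h1).trans (Nat.mul_le_mul_left _ ih)

/-- the sum over the primes, before the numerical estimates -/
private theorem sum_primes_le (C : ℝ) (hC : ∀ (X e : ℕ), 3 ≤ X → 1 ≤ e →
    ∑ r ∈ (Finset.Icc 1 X).filter (fun r => r.Prime ∧ e ∣ r - 1), (1 / r : ℝ) ≤
      C * (1 + Real.log (Real.log X)) / φ e) (M v : ℕ) (hM : 3 ≤ M) (hv : v ≠ 0) (κ : ℝ) :
    ∑ r ∈ (Finset.Icc 1 M).filter Nat.Prime, ((Nat.gcd (r - 1) v : ℕ) : ℝ) ^ κ / r ≤
      C * (1 + Real.log (Real.log M)) * ∑ e ∈ v.divisors, (e : ℝ) ^ κ / φ e := by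
  classical
  calc ∑ r ∈ (Finset.Icc 1 M).filter Nat.Prime, ((Nat.gcd (r - 1) v : ℕ) : ℝ) ^ κ / r
      ≤ ∑ r ∈ (Finset.Icc 1 M).filter Nat.Prime, ∑ e ∈ v.divisors,
          (if e ∣ r - 1 then (e : ℝ) ^ κ * (1 / r) else 0) := by
        refine Finset.sum_le_sum fun r _ => ?_
        have h1 : Nat.gcd (r - 1) v ∈ v.divisors :=
          Nat.mem_divisors.2 ⟨Nat.gcd_dvd_right _ _, hv⟩
        refine le_trans (le_of_eq ?_) (Finset.single_le_sum (f := fun e : ℕ =>
          (if e ∣ r - 1 then (e : ℝ) ^ κ * (1 / r) else 0)) (fun e _ => ?_) h1)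
        · simp only [Nat.gcd_dvd_left, if_true]
          rw [div_eq_mul_one_div]
        · split_ifs
          · positivity
          · exact le_rfl
    _ = ∑ e ∈ v.divisors, (e : ℝ) ^ κ *
          ∑ r ∈ (Finset.Icc 1 M).filter (fun r => r.Prime ∧ e ∣ r - 1), (1 / r : ℝ) := by
        rw [Finset.sum_comm]
        refine Finset.sum_congr rfl fun e _ => ?_
        rw [Finset.mul_sum, ← Finset.filter_filter]
        exact (Finset.sum_filter _ _).symm
    _ ≤ ∑ e ∈ v.divisors, (e : ℝ) ^ κ * (C * (1 + Real.log (Real.log M)) / φ e) := by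
        refine Finset.sum_le_sum fun e he => ?_
        refine mul_le_mul_of_nonneg_left (hC M e hM (Nat.pos_of_mem_divisors he)) ?_
        positivity
    _ = C * (1 + Real.log (Real.log M)) * ∑ e ∈ v.divisors, (e : ℝ) ^ κ / φ e := by
        rw [Finset.mul_sum]
        refine Finset.sum_congr rfl fun e _ => ?_
        ring

/-- the numerical estimates -/
private theorem sum_div_le {y v N : ℕ} (hv : v ≠ 0) (hvN : v ≤ N + 1)
    (h : ∀ p, p.Prime → p ∣ v → y < p) (hN : 2 ≤ N) (hlog : 1 ≤ Real.log N) {κ ε : ℝ}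
    (hκ : κ = ε / 4) (hε : 0 < ε) (hε1 : ε ≤ 1) (hy : (Real.log N) ^ (1 + ε) ≤ y) :
    ∑ e ∈ v.divisors, (e : ℝ) ^ κ / φ e ≤ Real.exp 8 := by
  have hNpos : (0 : ℝ) < N := by exact_mod_cast (by omega : 0 < N)
  have hlog1 : Real.log (N + 1) ≤ 2 * Real.log N := by
    have h1 : (N : ℝ) + 1 ≤ N ^ 2 := by
      have : (2 : ℝ) ≤ N := by exact_mod_cast hN
      nlinarith
    calc Real.log (N + 1) ≤ Real.log ((N : ℝ) ^ 2) := Real.log_le_log (by linarith) h1
      _ = 2 * Real.log N := by rw [Real.log_pow]; norm_num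
  have hy1 : Real.log N ≤ y := by
    refine le_trans ?_ hy
    calc Real.log N = (Real.log N) ^ (1 : ℝ) := (Real.rpow_one _).symm
      _ ≤ _ := Real.rpow_le_rpow_of_exponent_le hlog (by linarith)
  have hy0 : (1 : ℝ) ≤ y := hlog.trans hy1
  have hyn : 1 ≤ y := by exact_mod_cast hy0
  have hlen : ∀ e : ℕ, e ≠ 0 → e ≤ N + 1 → (e.primeFactorsList.length : ℝ) ≤ 4 * Real.log N := by
    intro e he heN
    refine (length_le_log he).trans ?_
    have : Real.log e ≤ Real.log (N + 1) := by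
      refine Real.log_le_log (by exact_mod_cast Nat.pos_of_ne_zero he) ?_
      exact_mod_cast heN
    linarith
  have hlog0 : 0 < Real.log N := by linarith
  have h1 : ∀ e ∈ v.divisors, (e : ℝ) ^ κ / φ e ≤ Real.exp 4 * (e : ℝ) ^ (-(1 - κ)) := by
    intro e he
    have hed := Nat.dvd_of_mem_divisors he
    have he0 : e ≠ 0 := (Nat.pos_of_mem_divisors he).ne'
    have heN : e ≤ N + 1 := (Nat.le_of_dvd (Nat.pos_of_ne_zero hv) hed).trans hvN
    have h2 := div_totient_rough (y := y) he0 (fun p hp hpe => h p hp (hpe.trans hed)) hyn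
    have h3 : (e : ℝ) / φ e ≤ Real.exp 4 := by
      refine h2.trans (Real.exp_le_exp.2 ?_)
      rw [div_le_iff₀ (by linarith)]
      have := hlen e he0 heN
      linarith
    have hepos : (0 : ℝ) < e := by exact_mod_cast Nat.pos_of_ne_zero he0
    have e1 : (e : ℝ) ^ κ / φ e = (e : ℝ) / φ e * (e : ℝ) ^ (-(1 - κ)) := by
      have e2 : (e : ℝ) ^ (-(1 - κ)) = (e : ℝ) ^ κ / e := by
        rw [neg_sub, Real.rpow_sub hepos, Real.rpow_one]
      rw [e2]
      field_simp
    rw [e1]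
    exact mul_le_mul_of_nonneg_right h3 (by positivity)
  refine (Finset.sum_le_sum h1).trans ?_
  rw [← Finset.mul_sum]
  have h2 := sum_divisors_rough (y := y) (v := v) hv h hyn (s := 1 - κ) (by rw [hκ]; linarith)
  have h3 : (v.primeFactorsList.length : ℝ) * (y : ℝ) ^ (-(1 - κ)) ≤ 4 := by
    have h4 : Real.log N ≤ (y : ℝ) ^ (1 - κ) := by
      calc Real.log N = (Real.log N) ^ (1 : ℝ) := (Real.rpow_one _).symm
        _ ≤ (Real.log N) ^ ((1 + ε) * (1 - κ)) := by
            refine Real.rpow_le_rpow_of_exponent_le hlog ?_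
            rw [hκ]
            nlinarith
        _ = ((Real.log N) ^ (1 + ε)) ^ (1 - κ) := Real.rpow_mul hlog0.le _ _
        _ ≤ (y : ℝ) ^ (1 - κ) := Real.rpow_le_rpow (by positivity) hy (by rw [hκ]; linarith)
    rw [Real.rpow_neg (by linarith), ← div_eq_mul_inv, div_le_iff₀ (by positivity)]
    have := hlen v hv hvN
    nlinarith
  calc Real.exp 4 * ∑ e ∈ v.divisors, (e : ℝ) ^ (-(1 - κ)) ≤ Real.exp 4 * Real.exp 4 := by
        refine mul_le_mul_of_nonneg_left ?_ (Real.exp_pos 4).le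
        exact h2.trans (Real.exp_le_exp.2 h3)
    _ = Real.exp 8 := by rw [← Real.exp_add]; norm_num

theorem good_sum {ε : ℝ} (hε : 0 < ε) (hε1 : ε ≤ 1) : ∃ C : ℝ, 0 < C ∧
    ∀ᶠ N : ℕ in Filter.atTop, ∀ y : ℕ, (Real.log N) ^ (1 + ε) ≤ y →
      ∀ v : ℕ, v ≠ 0 → v ≤ N + 1 → (∀ p, p.Prime → p ∣ v → y < p) →
        ∑ a ∈ (Finset.Icc 1 (N + 1)).filter Squarefree,
          ((Nat.gcd (U a) v : ℕ) : ℝ) ^ (ε / 4) / a ≤ (Real.log N) ^ C := by
  obtain ⟨C, hC0, hC⟩ := sum_inv_primes_mod_of sieve_count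
  refine ⟨3 * C * Real.exp 8, by positivity, ?_⟩
  have hlim : Filter.Tendsto (fun N : ℕ => Real.log (Real.log (N : ℝ))) Filter.atTop
      Filter.atTop :=
    Real.tendsto_log_atTop.comp (Real.tendsto_log_atTop.comp tendsto_natCast_atTop_atTop)
  have hlim' : Filter.Tendsto (fun N : ℕ => Real.log (N : ℝ)) Filter.atTop Filter.atTop :=
    Real.tendsto_log_atTop.comp tendsto_natCast_atTop_atTop
  filter_upwards [hlim.eventually_ge_atTop 1, hlim'.eventually_ge_atTop 1,
    Filter.eventually_ge_atTop 2] with N hll hl hN y hy v hv hvN hrough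
  have hNpos : (0 : ℝ) < N := by exact_mod_cast (by omega : 0 < N)
  have hlog1 : Real.log (N + 1) ≤ 2 * Real.log N := by
    have h1 : (N : ℝ) + 1 ≤ N ^ 2 := by
      have : (2 : ℝ) ≤ N := by exact_mod_cast hN
      nlinarith
    calc Real.log (N + 1) ≤ Real.log ((N : ℝ) ^ 2) := Real.log_le_log (by linarith) h1
      _ = 2 * Real.log N := by rw [Real.log_pow]; norm_num
  have hlog0 : 0 < Real.log N := by linarith
  have hlogN : Real.log N ≤ Real.log (N + 1) := Real.log_le_log hNpos (by linarith)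
  have hll1 : 1 + Real.log (Real.log ((N + 1 : ℕ) : ℝ)) ≤ 3 * Real.log (Real.log N) := by
    have h2 : Real.log (Real.log ((N + 1 : ℕ) : ℝ)) ≤ Real.log 2 + Real.log (Real.log N) := by
      rw [← Real.log_mul (by norm_num) hlog0.ne']
      push_cast
      exact Real.log_le_log (by linarith) hlog1
    have h3 : Real.log 2 ≤ 1 := by
      have := Real.log_two_lt_d9
      linarith
    linarith
  calc ∑ a ∈ (Finset.Icc 1 (N + 1)).filter Squarefree,
          ((Nat.gcd (U a) v : ℕ) : ℝ) ^ (ε / 4) / a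
      ≤ ∑ a ∈ (Finset.Icc 1 (N + 1)).filter Squarefree,
          (∏ r ∈ a.primeFactors, ((Nat.gcd (r - 1) v : ℕ) : ℝ) ^ (ε / 4)) / a := by
        refine Finset.sum_le_sum fun a _ => ?_
        refine div_le_div_of_nonneg_right ?_ (Nat.cast_nonneg a)
        rw [Real.finsetProd_rpow _ _ (fun r _ => Nat.cast_nonneg _)]
        refine Real.rpow_le_rpow (Nat.cast_nonneg _) ?_ (by linarith)
        rw [← Nat.cast_prod]
        exact_mod_cast gcd_prod_le hv a.primeFactors (fun r => r - 1)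
    _ ≤ Real.exp (∑ r ∈ (Finset.Icc 1 (N + 1)).filter Nat.Prime,
          ((Nat.gcd (r - 1) v : ℕ) : ℝ) ^ (ε / 4) / r) :=
        sum_squarefree_le (N + 1) _ fun r => by positivity
    _ ≤ Real.exp (Real.log (Real.log N) * (3 * C * Real.exp 8)) := by
        refine Real.exp_le_exp.2 ?_
        refine (sum_primes_le C hC (N + 1) v (by omega) hv (ε / 4)).trans ?_
        have h4 := sum_div_le hv hvN hrough hN hl (κ := ε / 4) rfl hε hε1 hy
        have h5 : 0 ≤ ∑ e ∈ v.divisors, (e : ℝ) ^ (ε / 4) / φ e :=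
          Finset.sum_nonneg fun e _ => by positivity
        have h6 : 0 ≤ Real.log (Real.log N) := by linarith
        calc C * (1 + Real.log (Real.log ((N + 1 : ℕ) : ℝ))) *
              ∑ e ∈ v.divisors, (e : ℝ) ^ (ε / 4) / φ e
            ≤ C * (3 * Real.log (Real.log N)) *
              ∑ e ∈ v.divisors, (e : ℝ) ^ (ε / 4) / φ e := by
              refine mul_le_mul_of_nonneg_right ?_ h5
              exact mul_le_mul_of_nonneg_left hll1 hC0.le
          _ ≤ C * (3 * Real.log (Real.log N)) * Real.exp 8 := by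
              refine mul_le_mul_of_nonneg_left h4 ?_
              positivity
          _ = _ := by ring
    _ = (Real.log N) ^ (3 * C * Real.exp 8) := (Real.rpow_def_of_pos hlog0 _).symm

/-- the number of `n ≤ N` with `a ∣ n`, `b ∣ n + 1` -/
private theorem card_pair_le (N a b : ℕ) (ha : 0 < a) (hb : 0 < b) :
    ((Finset.Icc 1 N).filter (fun n => a ∣ n ∧ b ∣ n + 1)).card ≤ N / (a * b) + 1 := by
  classical
  have hab : 0 < a * b := Nat.mul_pos ha hb
  have h1 : ((Finset.Icc 1 N).filter (fun n => a ∣ n ∧ b ∣ n + 1)).card ≤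
      (Finset.range (N / (a * b) + 1)).card := by
    refine Finset.card_le_card_of_injOn (fun n => n / (a * b)) ?_ ?_
    · intro n hn
      rw [Finset.mem_coe, Finset.mem_filter, Finset.mem_Icc] at hn
      rw [Finset.mem_coe, Finset.mem_range]
      exact Nat.lt_succ_of_le (Nat.div_le_div_right hn.1.2)
    · intro n hn m hm hnm
      rw [Finset.mem_coe, Finset.mem_filter] at hn hm
      have hcop : Nat.Coprime a b := by
        have h2 : Nat.Coprime n (n + 1) := by
          rw [Nat.coprime_self_add_right]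
          exact Nat.coprime_one_right n
        exact (h2.coprime_dvd_left hn.2.1).coprime_dvd_right hn.2.2
      have hmod : n ≡ m [MOD a * b] := by
        rw [← Nat.modEq_and_modEq_iff_modEq_mul hcop]
        constructor
        · exact ((Nat.modEq_zero_iff_dvd.2 hn.2.1).trans (Nat.modEq_zero_iff_dvd.2 hm.2.1).symm)
        · have h3 : n + 1 ≡ m + 1 [MOD b] :=
            (Nat.modEq_zero_iff_dvd.2 hn.2.2).trans (Nat.modEq_zero_iff_dvd.2 hm.2.2).symm
          exact Nat.ModEq.add_right_cancel' 1 h3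
      have h4 : n % (a * b) = m % (a * b) := hmod
      have h5 : n / (a * b) = m / (a * b) := hnm
      rw [← Nat.div_add_mod n (a * b), ← Nat.div_add_mod m (a * b), h4, h5]
  rwa [Finset.card_range] at h1

theorem good_count {ε : ℝ} (hε : 0 < ε) (hε1 : ε ≤ 1) : ∃ C : ℝ, 0 < C ∧
    ∀ᶠ N : ℕ in Filter.atTop, ∀ y : ℕ, (Real.log N) ^ (1 + ε) ≤ y →
      ∀ X z : ℝ, (N : ℝ) + 1 ≤ X → 1 ≤ z → ∀ S : Finset ℕ,
        (∀ n ∈ S, 1 ≤ n ∧ n ≤ N ∧ ∃ a b : ℕ, a ∣ n ∧ b ∣ n + 1 ∧ Squarefree a ∧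
          Squarefree b ∧ ((a * b : ℕ) : ℝ) ≤ X ∧
          z ≤ ((Nat.gcd (U a) (ro y (U b)) : ℕ) : ℝ)) →
        (S.card : ℝ) ≤ X * z ^ (-(ε / 4)) * (Real.log N) ^ C := by
  classical
  obtain ⟨C, hC0, hC⟩ := good_sum hε hε1
  refine ⟨C + 2, by linarith, ?_⟩
  have hlim' : Filter.Tendsto (fun N : ℕ => Real.log (N : ℝ)) Filter.atTop Filter.atTop :=
    Real.tendsto_log_atTop.comp tendsto_natCast_atTop_atTop
  filter_upwards [hC, hlim'.eventually_ge_atTop 6, Filter.eventually_ge_atTop 2] with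
    N hNC hl hN y hy X z hX hz S hS
  have hNpos : (0 : ℝ) < N := by exact_mod_cast (by omega : 0 < N)
  have hX0 : 0 < X := by linarith
  have hz0 : 0 < z := by linarith
  have hlog1 : Real.log (N + 1) ≤ 2 * Real.log N := by
    have h1 : (N : ℝ) + 1 ≤ N ^ 2 := by
      have : (2 : ℝ) ≤ N := by exact_mod_cast hN
      nlinarith
    calc Real.log (N + 1) ≤ Real.log ((N : ℝ) ^ 2) := Real.log_le_log (by linarith) h1
      _ = 2 * Real.log N := by rw [Real.log_pow]; norm_num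
  set B := (Finset.Icc 1 (N + 1)).filter Squarefree with hB
  set T := (B ×ˢ B).filter (fun p : ℕ × ℕ => ((p.1 * p.2 : ℕ) : ℝ) ≤ X ∧
    z ≤ ((Nat.gcd (U p.1) (ro y (U p.2)) : ℕ) : ℝ)) with hT
  have hBpos : ∀ a ∈ B, 0 < a := by
    intro a ha
    rw [hB, Finset.mem_filter, Finset.mem_Icc] at ha
    omega
  have hsub : S ⊆ T.biUnion (fun p : ℕ × ℕ =>
      (Finset.Icc 1 N).filter (fun n => p.1 ∣ n ∧ p.2 ∣ n + 1)) := by
    intro n hn
    obtain ⟨h1, h2, a, b, ha0', hb, hsa, hsb, habX, habz⟩ := hS n hn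
    rw [Finset.mem_biUnion]
    refine ⟨(a, b), ?_, ?_⟩
    · rw [hT, Finset.mem_filter, Finset.mem_product, hB, Finset.mem_filter, Finset.mem_filter,
        Finset.mem_Icc, Finset.mem_Icc]
      have e1 := Nat.le_of_dvd (by omega) ha0'
      have e2 := Nat.le_of_dvd (by omega) hb
      have e3 := Nat.pos_of_dvd_of_pos ha0' (by omega)
      have e4 := Nat.pos_of_dvd_of_pos hb (by omega)
      exact ⟨⟨⟨⟨e3, by omega⟩, hsa⟩, ⟨⟨e4, (by omega : b ≤ N + 1)⟩, hsb⟩⟩, habX, habz⟩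
    · rw [Finset.mem_filter, Finset.mem_Icc]
      exact ⟨⟨h1, h2⟩, ha0', hb⟩
  have hterm : ∀ p ∈ T, (((Finset.Icc 1 N).filter (fun n => p.1 ∣ n ∧ p.2 ∣ n + 1)).card : ℝ) ≤
      2 * X * z ^ (-(ε / 4)) * ((1 / p.2 : ℝ) *
        (((Nat.gcd (U p.1) (ro y (U p.2)) : ℕ) : ℝ) ^ (ε / 4) / p.1)) := by
    rintro ⟨a, b⟩ hp
    rw [hT, Finset.mem_filter, Finset.mem_product] at hp
    obtain ⟨⟨ha, hb⟩, habX, habz⟩ := hp
    dsimp only at ha hb habX habz ⊢
    have ha0 := hBpos a ha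
    have hb0 := hBpos b hb
    have ha' : (0 : ℝ) < a := by exact_mod_cast ha0
    have hb' : (0 : ℝ) < b := by exact_mod_cast hb0
    have h1 : (((Finset.Icc 1 N).filter (fun n => a ∣ n ∧ b ∣ n + 1)).card : ℝ) ≤
        2 * X / (a * b) := by
      have h2 : (((Finset.Icc 1 N).filter (fun n => a ∣ n ∧ b ∣ n + 1)).card : ℝ) ≤
          ((N / (a * b) : ℕ) : ℝ) + 1 := by exact_mod_cast card_pair_le N a b ha0 hb0
      have h3 : ((N / (a * b) : ℕ) : ℝ) ≤ (N : ℝ) / ((a * b : ℕ) : ℝ) := Nat.cast_div_le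
      push_cast at h3 habX
      have h4 : (N : ℝ) / (a * b) ≤ X / (a * b) :=
        div_le_div_of_nonneg_right (by linarith) (by positivity)
      have h5 : 1 ≤ X / (a * b) := by
        rw [le_div_iff₀ (by positivity), one_mul]
        exact habX
      have h6 : 2 * X / (a * b : ℝ) = X / (a * b) + X / (a * b) := by ring
      rw [h6]
      linarith
    have h7 : 1 ≤ z ^ (-(ε / 4)) * ((Nat.gcd (U a) (ro y (U b)) : ℕ) : ℝ) ^ (ε / 4) := by
      have h8 : z ^ (ε / 4) ≤ ((Nat.gcd (U a) (ro y (U b)) : ℕ) : ℝ) ^ (ε / 4) :=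
        Real.rpow_le_rpow hz0.le habz (by linarith)
      have h9 : z ^ (-(ε / 4)) * z ^ (ε / 4) = 1 := by
        rw [← Real.rpow_add hz0, neg_add_cancel, Real.rpow_zero]
      rw [← h9]
      exact mul_le_mul_of_nonneg_left h8 (by positivity)
    calc (((Finset.Icc 1 N).filter (fun n => a ∣ n ∧ b ∣ n + 1)).card : ℝ)
        ≤ 2 * X / (a * b) * 1 := by rw [mul_one]; exact h1
      _ ≤ 2 * X / (a * b) *
          (z ^ (-(ε / 4)) * ((Nat.gcd (U a) (ro y (U b)) : ℕ) : ℝ) ^ (ε / 4)) :=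
          mul_le_mul_of_nonneg_left h7 (by positivity)
      _ = _ := by
          field_simp
  have hinner : ∀ b ∈ B, ∑ a ∈ B, ((Nat.gcd (U a) (ro y (U b)) : ℕ) : ℝ) ^ (ε / 4) / a ≤
      (Real.log N) ^ C := by
    intro b hb
    refine hNC y hy (ro y (U b)) (ro_pos _ _).ne' ?_ (fun p hp hpd => lt_of_dvd_ro hp hpd)
    have hb0 := hBpos b hb
    rw [hB, Finset.mem_filter, Finset.mem_Icc] at hb
    exact ((Nat.le_of_dvd (U_pos b) (ro_dvd (U_pos b).ne')).trans (U_le hb0.ne')).trans hb.1.2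
  have hharm : ∑ b ∈ B, (1 / b : ℝ) ≤ 1 + Real.log (N + 1) := by
    have h1 : ∑ b ∈ B, (1 / b : ℝ) ≤ ∑ b ∈ Finset.Icc 1 (N + 1), (1 / b : ℝ) :=
      Finset.sum_le_sum_of_subset_of_nonneg (Finset.filter_subset _ _)
        (fun b _ _ => by positivity)
    have h2 := harmonic_le_one_add_log (N + 1)
    rw [harmonic_eq_sum_Icc] at h2
    push_cast at h2
    refine h1.trans (le_trans (le_of_eq ?_) h2)
    refine Finset.sum_congr rfl fun b _ => ?_
    rw [one_div]
  have hlogC : 0 ≤ (Real.log N) ^ C := by positivity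
  calc (S.card : ℝ) ≤ ((T.biUnion (fun p : ℕ × ℕ =>
        (Finset.Icc 1 N).filter (fun n => p.1 ∣ n ∧ p.2 ∣ n + 1))).card : ℝ) := by
        exact_mod_cast Finset.card_le_card hsub
    _ ≤ ∑ p ∈ T, (((Finset.Icc 1 N).filter (fun n => p.1 ∣ n ∧ p.2 ∣ n + 1)).card : ℝ) := by
        exact_mod_cast Finset.card_biUnion_le
    _ ≤ ∑ p ∈ T, 2 * X * z ^ (-(ε / 4)) * ((1 / p.2 : ℝ) *
          (((Nat.gcd (U p.1) (ro y (U p.2)) : ℕ) : ℝ) ^ (ε / 4) / p.1)) :=
        Finset.sum_le_sum hterm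
    _ ≤ ∑ p ∈ B ×ˢ B, 2 * X * z ^ (-(ε / 4)) * ((1 / p.2 : ℝ) *
          (((Nat.gcd (U p.1) (ro y (U p.2)) : ℕ) : ℝ) ^ (ε / 4) / p.1)) :=
        Finset.sum_le_sum_of_subset_of_nonneg (Finset.filter_subset _ _)
          (fun p _ _ => by positivity)
    _ = 2 * X * z ^ (-(ε / 4)) * ∑ b ∈ B, (1 / b : ℝ) *
          ∑ a ∈ B, ((Nat.gcd (U a) (ro y (U b)) : ℕ) : ℝ) ^ (ε / 4) / a := by
        rw [← Finset.mul_sum, Finset.sum_product_right]
        congr 1
        refine Finset.sum_congr rfl fun b _ => ?_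
        rw [Finset.mul_sum]
    _ ≤ 2 * X * z ^ (-(ε / 4)) * ∑ b ∈ B, (1 / b : ℝ) * (Real.log N) ^ C := by
        refine mul_le_mul_of_nonneg_left ?_ (by positivity)
        exact Finset.sum_le_sum fun b hb => mul_le_mul_of_nonneg_left (hinner b hb) (by positivity)
    _ = 2 * X * z ^ (-(ε / 4)) * (Real.log N) ^ C * ∑ b ∈ B, (1 / b : ℝ) := by
        rw [← Finset.sum_mul]
        ring
    _ ≤ 2 * X * z ^ (-(ε / 4)) * (Real.log N) ^ C * (1 + Real.log (N + 1)) :=
        mul_le_mul_of_nonneg_left hharm (by positivity)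
    _ ≤ 2 * X * z ^ (-(ε / 4)) * (Real.log N) ^ C * ((Real.log N) ^ 2 / 2) := by
        refine mul_le_mul_of_nonneg_left ?_ (by positivity)
        nlinarith
    _ = X * z ^ (-(ε / 4)) * (Real.log N) ^ (C + 2) := by
        rw [Real.rpow_add (by linarith), Real.rpow_two]
        ring

end Pool.Agent.TN
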